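import Pool.Agent.Run7.h260.LQ.Tow

/-!
# Weak abundance for the images of towers of pairs over pairs of low degree: logarithmic general type or
`A¹`-uniruled

A tower of pairs of dimension `n` with the bound `s` (`PairTower n Base K B s`) is a sequence of dominant
rational maps of finite degree `V_0 ⇢ V_1 ⇢ ... ⇢ V_k` between varieties of dimension `n` over `ℂ` with
boundaries `B_i`, such that `B_i` is the preimage of `B_(i + 1)`. At the step `V_i ⇢ V_(i + 1)`, of degree
`b_i`, the logarithmic canonical divisor of `(V_i, B_i)` is positive relative to `V_(i + 1)`
(`PositiveL`): `V_(i + 1)` is the image of `V_i` in a projective space, and for all varieties `Y'`,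
`V_i ⇢ Y' ⇢ V_(i + 1)`, of degree `> 1` over `V_(i + 1)` there is a section of `K_(V_i) + B_i - m H` with a
nonzero trace on `Y'`, where `s_i ≤ [V_i : Y'] (m + 1)`. The bounds are `s_0 = s`,
`s_(i + 1) = ⌊s_i / b_i⌋`. The last pair `(V_k, B_k)`, with the bound `s_k`, is one of the following.

* `V_k` has a generically finite map, of any degree, to a variety `V` in `ℙ^(M + 1)`, and `B_k` contains
  the preimage of a boundary `B` of `V`, where `V` is cut out by equations of degree at most `D`, has
  the regular canonical forms `P(x) ω₀` for all forms `P` of degree `m'`, and the sections `P(x) ω₁` of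
  `K_V + B` for all forms `P` of degree `m` (`LowDegreePair`). This is so for smooth complete
  intersections `V` (for instance hypersurfaces) with divisors `B` with simple normal crossings
  and `K_V = O(m')`, `K_V + B = O(m)`: see `pair_of_snc` in `Pool/Agent/Run7/h260/LQ/Sep.lean`. For some
  `N` one has `m ≥ 7 N + 4`, `(M + 1) N < m + M + 2`, `D + N ≤ m + 2`, `N ≤ m' + 1` and
  `s_k < (N + 1) (m + 2 - N)`.
* The open variety `V_k - B_k` is dominated by an `A¹`-ruled one (`A1Dominated`); no condition on `s_k`.

**Theorem.** Let `(V, B)` be the first pair of a tower with the bound `s = 2 r`, and `V ⇢ W` any dominant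
rational map of degree `r` such that `B` is the preimage of the boundary `D_W` of `W`. Then `K_W + D_W` is
big, or else there are no logarithmic canonical forms on `W`, `κ(K_W + D_W) = -∞`, `K_W + D_W` is not
pseudo-effective, and `W - D_W` is `A¹`-uniruled.

So `κ(K_W + D_W) = ν(K_W + D_W)`, equal to `dim W` or `-∞`, for the log canonical pairs consisting of a log
smooth model of `W` and `D_W`, and weak abundance holds for all log canonical pairs `(X, Δ)`, `Δ`
reduced, which have such a pair as a log resolution in the sense that `D_W` is the set of the places
over `Δ` and the exceptional divisors.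

Proof. If `W` is not of logarithmic general type then at each step `V_i ⇢ W` factors through `V_(i + 1)`
(`R882.HO.factors_step_log`), with `[V_(i + 1) : W] = [V_i : W] / b_i`. At the bottom, in the first case `W`
is of logarithmic general type (`Pool/Agent/Run7/h260/LQ/Fin.lean`, new: few generic points of `V` impose
independent conditions on the forms of degree `m`, since `V` is not covered by curves of degree at
most `m' + 1`), a contradiction, and the second case descends to `W`. The starting files have towers in
tori over `A¹`-ruled varieties (`MP_66b48b_ag.OpenTowers`), and the case of empty boundaries of the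
theorem on forms for complete intersections of codimension at least two (project GP).
-/

set_option autoImplicit false

open FF Pool.Agent.W602.GT
open Pool.Agent.W619.PL (IsA1Uniruled)
open Pool.Agent.R882.HO (LogGenusZero A1Dominated)
open Pool.Agent.Run7.h260.LQ (PairTower)

namespace Pool.Agent.Results.MP_2c56d9_ag.ImagesOfPairTowers

/-- **Weak abundance for the images of towers of pairs.** Let `K` be the function field, and `B` the
boundary, of the first pair of a tower of dimension `n ≥ 1` with the bound `2 [K : L]`, over a pair of low
degree or over an open variety dominated by an `A¹`-ruled one, where `L ⊆ K` is the function field of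
`W`, with a boundary `BL` whose preimage is `B`. Then these are equivalent: there are no logarithmic
canonical forms on `W`; `κ(K_W + D_W) = -∞`; `K_W + D_W` is not pseudo-effective; `K_W + D_W` is not big; `W`
is `A¹`-uniruled; `W` is dominated by an `A¹`-ruled variety. -/
theorem result {n : ℕ} (hn : 1 ≤ n) {K : Type} [Field K] [Algebra ℂ K] [Algebra.EssFiniteType ℂ K]
    (hK : Algebra.trdeg ℂ K = (n : ℕ)) {B : Place ℂ K → Prop}
    (L : Type) [Field L] [Algebra ℂ L] [Algebra L K] [IsScalarTower ℂ L K]
    [FiniteDimensional L K] {BL : Place ℂ L → Prop}
    (hB : ∀ (P : Place ℂ L) (Q : Place ℂ K) (e : ℕ), Over Q P e → (BL P ↔ B Q))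
    (h : PairTower n (fun E _ _ BE => A1Dominated n E BE) K B (2 * Module.finrank L K)) :
    [LogGenusZero L n BL, ¬ KodGe ℂ L n BL 0, ¬ Psef ℂ L n BL, ¬ LogGeneralType ℂ L n BL,
      IsA1Uniruled ℂ L n BL, A1Dominated n L BL].TFAE :=
  Pool.Agent.Run7.h260.LQ.tfae_two L hn hK hB h le_rfl

end Pool.Agent.Results.MP_2c56d9_ag.ImagesOfPairTowers
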