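import Pool.Agent.Run7.h72.Dims
import Pool.Agent.Y172.Loc3

/-!
# Weak abundance and finite covers of small degree

`X` is a complex normal projective variety with function field `K`, given by the homogeneous
coordinates `y` of its generic point, and `Y` is its normalisation in the finite extension `L` of `K`.
If `K_Y + Γ` is positive enough compared with the degree of `Y → X`, then `K_X + Δ` and `K_Y + Γ`
have the same Kodaira dimension and the same numerical dimension: a higher dimensional analogue of the
inequality of Castelnuovo and Severi.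

The proof: if `t` generates the last step of the tower and all `t ^ j ω` with `j ≤ 2 (r - 1) m` are
sections of `m (K_Y + Γ) + f^* A`, then the norm of `ω`, multiplied by the `m`-th power of the norm of
the derivative of the minimal polynomial of `t`, is a section of `r m (K_X + Δ) + r A`; and the norms
of linearly independent sections span a space of at least the same dimension.
-/

set_option autoImplicit false

open FF Module Pool.Agent.Y172 Pool.Agent.W602.GT Run7.h72

namespace Pool.Agent.Results.MP_2c56d9_ag.SmallDegreeImages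

/-- The set of the prime divisors of the normal projective variety with generic point `y`. -/
def PD {K : Type} [Field K] [Algebra ℂ K] {N₀ : ℕ} (y : Fin (N₀ + 1) → K) : Set (Place ℂ K) :=
  {P | IsPrimeDivisor y P}

/-- Let `X` be a normal projective variety of dimension `n` with function field `K`, let `Y` be its
normalisation in `L` (its prime divisors are the places over those of `X`), let `Δ` and `Γ` be
`ℚ`-divisors on `X` and `Y` with `1 - e (1 - Δ P) ≤ Γ Q ≤ e Δ P` for `Q` over `P` with ramification
index `e`. Let `x i` (`i < c`) be families of rational functions on `Y`, each containing `1`, which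
generate `L` over `K`; let `K_i = K (x 0, …, x (i - 1))` (this is `Lv K x i`) and suppose that there
are `N` and `M i > 2 N ([K_{i + 1} : K_i] - 1)` and a nonzero `N`-canonical form `η` such that all
products of `η` with `∏ (x i (f i)) ^ M i` are sections of `N (K_Y + Γ)`. Then `K_X + Δ` and
`K_Y + Γ` have the same Kodaira dimension and the same numerical dimension. -/
theorem result {K L : Type} [Field K] [Field L] [Algebra ℂ K] [Algebra ℂ L] [Algebra K L]
    [IsScalarTower ℂ K L] [FiniteDimensional K L] {N₀ n : ℕ} {y : Fin (N₀ + 1) → K}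
    (hy : NormalModel y) (hn : Algebra.trdeg ℂ K = n) {Δ : Place ℂ K → ℚ} {Γ : Place ℂ L → ℚ}
    (hΓ : ∀ P ∈ PD y, ∀ (Q : Place ℂ L) (e : ℕ), Over Q P e →
      1 - e * (1 - Δ P) ≤ Γ Q ∧ Γ Q ≤ e * Δ P)
    {c : ℕ} {m : Fin c → ℕ} (x : ∀ i, Fin (m i + 1) → L) (hx : ∀ i, x i 0 = 1)
    (hgen : Lv K x c = ⊤) {N : ℕ} (M : Fin c → ℕ)
    (hM : ∀ i : Fin c, 2 * N * (finrank K (Lv K x (i + 1)) - finrank K (Lv K x i)) <
      M i * finrank K (Lv K x i))
    {η : (Fin n → Derivation ℂ L L) → L}
    (hη : ∀ f : ∀ i, Fin (m i + 1),
      Sec (Ov L (PD y)) n N (N • Γ) fun D => (∏ i, x i (f i) ^ M i) * η D)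
    (hη0 : ∃ D, η D ≠ 0) :
    kap (PD y) n Δ = kap (Ov L (PD y)) n Γ ∧ nu (PD y) n Δ = nu (Ov L (PD y)) n Γ := by
  have hess := hy.ess
  have hX : ∀ P ∈ PD y, Divisorial n P := fun P hP => IsPrimeDivisor.divisorial hy hn hP
  have hM' : ∀ i : Fin c, 2 * (finrank K (Lv K x (i + 1)) - finrank K (Lv K x i)) * N <
      M i * finrank K (Lv K x i) := fun i => by
    have h1 := hM i
    have e1 : 2 * N * (finrank K (Lv K x (i + 1)) - finrank K (Lv K x i)) =
        2 * (finrank K (Lv K x (i + 1)) - finrank K (Lv K x i)) * N := by ring
    rwa [e1] at h1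
  exact dims_eq hn hX (fun P hP Q e hQ => (hΓ P hP Q e hQ).1)
    (fun P hP Q e hQ => (hΓ P hP Q e hQ).2) x hx hgen M hM' hη hη0

end Pool.Agent.Results.MP_2c56d9_ag.SmallDegreeImages
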